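import Mathlib
import Pool.Agent.L0h76.HK.E

set_option autoImplicit false

namespace Pool.Agent.Results.MP_29211c_nt.QOne

open Finset Matrix Pool.Agent.R945.TP Pool.Agent.Helper184.Chapman NumberField Module Pool.Agent.L0h76.HK

/-- the determinant `D⁺_p` of `[x + (j+k|p) + (j|p) y + (k|p) z + (jk|p) w]`, `0 ≤ j, k ≤ (p-3)/2` -/
noncomputable def D (p : ℕ) [Fact p.Prime] (x y z w : ℂ) : ℂ :=
  (Matrix.of fun j k : Fin ((p - 1) / 2) =>
    x + ((legendreSym p ((j : ℤ) + (k : ℤ)) : ℤ) : ℂ) + ((legendreSym p (j : ℤ) : ℤ) : ℂ) * y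
      + ((legendreSym p (k : ℤ) : ℤ) : ℂ) * z + ((legendreSym p ((j : ℤ) * (k : ℤ)) : ℤ) : ℂ) * w).det

/-- `ε` is the fundamental unit `> 1` of `K`, seen in `ℝ` through `φ` -/
def IsFundamentalUnit (K : Type) [Field K] [NumberField K] (φ : K →+* ℝ) (ε : ℝ) : Prop :=
  1 < ε ∧ ∀ x : ℝ, (∃ v : (𝓞 K)ˣ, φ ((v : 𝓞 K) : K) = x) ↔ ∃ n : ℤ, x = ε ^ n ∨ x = -ε ^ n

lemma D_eq (p : ℕ) [Fact p.Prime] (m : ℕ) (hm : p = 2 * m + 1) (x y z w : ℂ) :
    D p x y z w = (MM p m x y z w).det := by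
  have hm1 : (p - 1) / 2 = m := by omega
  unfold D MM
  rw [hm1]
  congr 1
  ext j k
  simp only [Matrix.of_apply, chi_apply]
  unfold legendreSym
  push_cast
  rw [map_mul]
  push_cast
  ring

theorem result (p : ℕ) [Fact p.Prime] (hp3 : 3 < p) :
    (p % 4 = 1 → ∀ (K : Type) [Field K] [NumberField K], finrank ℚ K = 2 →
      (∃ β : K, β ^ 2 = (p : K)) → ∀ (φ : K →+* ℝ) (ε : ℝ), IsFundamentalUnit K φ ε →
      ∀ a b : ℚ, ε ^ (classNumber K) = a + b * Real.sqrt p →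
      ∀ x y z w : ℂ, D p x y z w =
        (legendreSym p 2 : ℤ) * 2 ^ ((p - 3) / 2) *
          ((p * b - 2 * a) * x + (a - 2 * b) * (w * x - (y + 1) * (z + 1)))) ∧
    (p % 4 = 3 → ∀ x y z w : ℂ, D p x y z w =
        2 ^ ((p - 3) / 2) * ((w * x - (y + 1) * (z + 1)) - 2 * x)) := by
  have hp : p.Prime := Fact.out
  obtain ⟨m, hm⟩ : ∃ m, p = 2 * m + 1 := by
    rcases hp.eq_two_or_odd with h | h
    · omega
    · exact ⟨p / 2, by omega⟩
  have he : (p - 3) / 2 = m - 1 := by omega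
  rw [he]
  constructor
  · intro h1 K _ _ h2 ⟨β, hβ⟩ φ ε hε a b hab x y z w
    rw [D_eq p m hm, main_one h1 m hm K h2 β hβ φ ε hε a b hab, chi_apply]
    have hL : legendreSym p 2 = quadraticChar (ZMod p) 2 := by unfold legendreSym; push_cast; rfl
    rw [hL]
  · intro h3 x y z w
    rw [D_eq p m hm, three m hm hp3 h3]

end Pool.Agent.Results.MP_29211c_nt.QOne
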